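import Pool.Agent.Helper478_Rand.Main

/-!
# The points `x r, x r ^ 2, …, x r ^ n` modulo one for a random base `r`

Let `x` be an irrational number which is not a Liouville number, for instance an irrational algebraic
number. The question is whether the sequence `x r ^ i`, `i = 1, 2, …`, is equidistributed modulo one for
some integer `r ≥ 2`. We prove that for a random base `r ≤ R` the first `n` points of this sequence are
very nearly independent and uniformly distributed modulo one, if `n` is at most a power
`(log R) ^ (1 / κ)` of `log R`: the discrepancy of the points `({x r}, …, {x r ^ n})`, `r ≤ R`, in the unit cube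
of dimension `n`, with respect to all boxes, is at most `exp(-n ^ a)`, for every given `a`, where
`κ = κ(a)`. So in a random base these initial segments obey all the laws of independent random points (laws of large
numbers with error terms, central limit theorem, distribution of the longest run and so on).

Proof. A product of `n` trigonometric polynomials in one variable, of degree `exp(4 n ^ a)`, majorises the
indicator function of a box; the complement of a box in the cube is divided into `3 ^ n - 1` boxes, so that
upper bounds suffice. The sums `∑_{r ≤ R} e(P(r))` over the polynomials `P = ∑ h_i x r ^ i` which occur are at most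
`R exp(-3 n ^ a)` by Vinogradov's mean value theorem, with explicit dependence on the degree.
-/

set_option autoImplicit false

namespace Pool.Agent.Results.MP_5b6025_nt.IndependenceInRandomBase

open Finset

/-- Let `a` be a natural number. There is `κ` such that for every irrational real number `x` which is not
a Liouville number (by Liouville's theorem, `Liouville.transcendental`, this includes all irrational
algebraic numbers) there is `n₀` such that for all `n ≥ n₀`, all `R` with `n ^ κ ≤ log R` and all
boxes `∏ [p i, q i)` in the unit cube of dimension `n` the number of the bases `1 ≤ r ≤ R` such that the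
fractional part of `x * r ^ i` lies in `[p i, q i)` for all `i = 1, …, n` (in Lean the coordinates are
`i = 0, …, n - 1` with the exponents `i + 1`) differs from `R ∏ (q i - p i)` by at most `R exp(-n ^ a)`. -/
theorem result (a : ℕ) : ∃ κ : ℕ, ∀ x : ℝ, Irrational x → ¬ Liouville x → ∃ n₀ : ℕ, ∀ n R : ℕ,
    n₀ ≤ n → (n : ℝ) ^ κ ≤ Real.log R → ∀ p q : Fin n → ℝ, (∀ i, 0 ≤ p i ∧ p i ≤ q i ∧ q i ≤ 1) →
    |(({r : ℕ | 1 ≤ r ∧ r ≤ R ∧ ∀ i : Fin n, p i ≤ Int.fract (x * (r : ℝ) ^ ((i : ℕ) + 1)) ∧
      Int.fract (x * (r : ℝ) ^ ((i : ℕ) + 1)) < q i}.ncard : ℕ) : ℝ) - R * ∏ i, (q i - p i)| ≤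
        R * Real.exp (-(n : ℝ) ^ a) := by
  obtain ⟨κ, h⟩ := Pool.Agent.Helper478.Rand.rand_box (max a 2) (le_max_right _ _)
  refine ⟨κ, ?_⟩
  intro x hx hL
  -- a Diophantine inequality
  obtain ⟨m, hm⟩ : ∃ m : ℕ, ∀ A B : ℤ, 1 < B → x ≠ A / B → 1 / (B : ℝ) ^ m ≤ |x - A / B| := by
    unfold Liouville at hL
    push Not at hL
    obtain ⟨m, hm⟩ := hL
    exact ⟨m, fun A B h1 h2 => hm A B h1 h2⟩
  have hdio : ∀ q : ℕ, 1 ≤ q → ∀ p : ℤ,
      1 ≤ (2 : ℝ) ^ m * (q : ℝ) ^ (m + 1 - 1) * |q * x - p| := by
    intro q hq p
    have hq0 : (0 : ℝ) < q := by exact_mod_cast hq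
    have hq1 : (1 : ℝ) ≤ q := by exact_mod_cast hq
    have h1 := hm (2 * p) (2 * q) (by omega) (by
      intro h2
      apply hx
      refine ⟨(p : ℚ) / q, ?_⟩
      rw [h2]
      push_cast
      field_simp)
    have h3 : x - ((2 * p : ℤ) : ℝ) / ((2 * q : ℤ) : ℝ) = (q * x - p) / q := by
      push_cast; field_simp
    rw [h3, abs_div, abs_of_pos hq0, div_le_div_iff₀ (by positivity) hq0, one_mul] at h1
    have h4 : (((2 * q : ℤ) : ℝ)) ^ m = 2 ^ m * (q : ℝ) ^ m := by push_cast; rw [mul_pow]
    rw [h4] at h1
    rw [Nat.add_sub_cancel]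
    calc (1 : ℝ) ≤ q := hq1
      _ ≤ |q * x - p| * (2 ^ m * (q : ℝ) ^ m) := h1
      _ = 2 ^ m * (q : ℝ) ^ m * |q * x - p| := by ring
  obtain ⟨n₀, hn₀⟩ := h x (m + 1) (2 ^ m) (by omega) (by positivity) hdio
  refine ⟨n₀ + 1, ?_⟩
  intro n R hn hR p q hpq
  refine (hn₀ n R (by omega) hR p q hpq).trans ?_
  rw [mul_comm]
  apply mul_le_mul_of_nonneg_left _ (Nat.cast_nonneg _)
  apply Real.exp_le_exp.2
  apply neg_le_neg
  have hn1 : (1 : ℝ) ≤ n := by exact_mod_cast (by omega : 1 ≤ n)
  exact pow_le_pow_right₀ hn1 (le_max_left _ _)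

end Pool.Agent.Results.MP_5b6025_nt.IndependenceInRandomBase
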